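import Pool.Agent.H914R2.KDefs

/-!
# Constructible subspaces of the cohomology, and families of varieties: definitions
-/

open CategoryTheory AlgebraicGeometry

universe u v

namespace Pool.Agent.T2H05.Fib

open Pool.Agent.H914 VarClass Obj WeilCohomology

variable {k : Type u} [Field k] {𝒱 : VarClass k} {ops : CycleOps 𝒱}

/-- A variety `V` with two morphisms to `X`, a variety `G` with two morphisms to a variety `F`, and
morphisms from `F` to `X` and from `G` to `V` which are compatible with these. The example: `X` is
the total space of a family of varieties over `S` (a smooth projective variety with a surjective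
morphism to `S`), `F` is a smooth fibre, `V` is a resolution or an alteration of the singularities
of `X ×_S X`, and `G` is the fibre of `V`; if `X` is smooth over `S` then `V = X ×_S X` and
`G = F × F`. -/
structure Family {k : Type u} [Field k] {𝒱 : VarClass k} (X : 𝒱.Obj) where
  F : 𝒱.Obj
  V : 𝒱.Obj
  G : 𝒱.Obj
  p₁ : V ⟶ X
  p₂ : V ⟶ X
  q₁ : G ⟶ F
  q₂ : G ⟶ F
  i : F ⟶ X
  j : G ⟶ V
  w₁ : j ≫ p₁ = q₁ ≫ i
  w₂ : j ≫ p₂ = q₂ ≫ i
  dim : V.dim = X.dim + F.dim

/-- The operator on the cohomology of `X` given by a class on `V`. -/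
noncomputable def total (W : WeilCohomology.{u, v} ops) {X : 𝒱.Obj} (R : Family X)
    (z : R.V.Cycles) : Module.End W.K (W.H X) :=
  corrOp (W.map R.p₁) (W.push R.p₂) (W.cl R.V z)

/-- The operator on the cohomology of `F` given by the restriction to `G` of a class on `V`. -/
noncomputable def fibre (W : WeilCohomology.{u, v} ops) {X : 𝒱.Obj} (R : Family X)
    (z : R.V.Cycles) : Module.End W.K (W.H R.F) :=
  corrOp (W.map R.q₁) (W.push R.q₂) (W.map R.j (W.cl R.V z))

/-- The algebraic cycle `z` on `V` is a diagonal: it acts as the identity on the cohomology of `X`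
and its restriction to `G` acts as the identity on the cohomology of `F`. -/
def IsDiagonal (W : WeilCohomology.{u, v} ops) {X : 𝒱.Obj} (R : Family X) (z : R.V.Cycles) : Prop :=
  R.V.IsCyc R.F.dim z ∧ total W R z = 1 ∧ fibre W R z = 1

/-- The restriction of `g` to `G` induces the inverse of `ξ ^ c` on the cohomology of the fibre,
where `ξ` is the class of `D`. -/
def IsInverse (W : WeilCohomology.{u, v} ops) {X : 𝒱.Obj} (R : Family X) (D : X.Cycles) (c : ℕ)
    (g : R.V.Cycles) : Prop :=
  ∀ u ∈ W.gr R.F (R.F.dim + c), W.map R.i (W.cl X D) ^ c * fibre W R g u = u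

section Alg

variable {K A B C E : Type*} [Field K] [Ring A] [Algebra K A] [Ring B] [Algebra K B] [Ring C]
  [Algebra K C] [Ring E] [Algebra K E]

/-- The elements of degree `m` which are orthogonal to `J`. -/
def orth (gr : ℕ → Submodule K A) (tr : A →ₗ[K] K) (J : Submodule K A) (m : ℕ) : Set A :=
  {x | x ∈ gr m ∧ ∀ y ∈ J, tr (x * y) = 0}

/-- The products `p₁ x * p₂ t` of the elements `x` of `N'` and `t` of `T` come from the fibre: they
are images under `s` of sums of products `q₁ u * q₂ v`, with `u` of degree `a` and `v` of
degree `b`. -/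
def ComesFromFibre (p₁ p₂ : A →ₐ[K] B) (q₁ q₂ : C →ₐ[K] E) (s : E →ₗ[K] B)
    (gr : ℕ → Submodule K C) (a b : ℕ) (N' : Set A) (T : Submodule K A) : Prop :=
  ∀ x ∈ N', ∀ t ∈ T, ∃ w ∈ Submodule.span K {w | ∃ u ∈ gr a, ∃ v ∈ gr b, w = q₁ u * q₂ v},
    p₁ x * p₂ t = s w

/-- The conditions on the subspaces `J`, `N`, `T`, `U` in the definition of the middle part: `A`, `B`,
`C`, `E` are the cohomologies of `X`, `V`, `F`, `G`, and `ξ` is the class of a divisor on `X`, the
dimensions of `X` and `F` are `n` and `d`. -/
structure MiddleConditions (p₁ p₂ : A →ₐ[K] B) (q₁ q₂ : C →ₐ[K] E) (s : E →ₗ[K] B)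
    (gr : ℕ → Submodule K A) (tr : A →ₗ[K] K) (grF : ℕ → Submodule K C) (ν : Module.End K A)
    (ξ : A) (n d c : ℕ) (J N T U : Submodule K A) : Prop where
  stable : ∀ x ∈ orth gr tr J (n + c), ν x ∈ N
  comes : ComesFromFibre p₁ p₂ q₁ q₂ s grF (d + c) (d - c) (orth gr tr J (n + c)) T
  sub : J ≤ U
  sum : gr (n - c) ≤ T ⊔ U
  orthogonal : ∀ u ∈ U ⊓ N, ∀ t ∈ T, tr (ξ ^ c * (u * t)) = 0

/-- `U'` is the injective image of `U` under `f`. -/
def IsImage {B' : Type*} [AddCommGroup B'] [Module K B'] (f : A →ₗ[K] B') (U : Submodule K A)
    (U' : Submodule K B') : Prop :=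
  U ⊓ LinearMap.ker f = ⊥ ∧ U' = U.map f

/-- `T` is the direct sum of `U` and `U'`. -/
def IsDirectSum (U U' T : Submodule K A) : Prop :=
  U ⊓ U' = ⊥ ∧ T = U ⊔ U'

end Alg

/-- The subspace `T` of `H^(n - c)(X)`, `n = dim X`, is the middle part of the family, relative to
the subspaces `J`, `N`, and up to `U`: there is an algebraic cycle `g` on `V` such that

* the restriction of `g` to `G` induces the inverse of `ξ ^ c` on the cohomology of the fibre, where
  `ξ` is the class of `D`;
* `g` maps the elements of `H^(n + c)(X)` orthogonal to `J` to elements of `N`;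
* the products of the elements of `H^(n + c)(X)` orthogonal to `J` and of the elements of `T`, on `V`,
  come from the fibre;
* `J` is contained in `U`, `H^(n - c)(X)` is the sum of `T` and `U`, and `T` is orthogonal to the
  intersection of `U` and `N` for the form `tr (ξ ^ c * x * y)`.

The example: for a family over `S`, `dim S = s`, `T` is the part `H^s(S, R^(n - c - s))` of
`H^(n - c)(X)`, and `J`, `N` are the steps `H^a(S, -)`, `a > s` and `a ≥ s`, of the Leray filtration
of `H^(n - c)(X)`. If `S` is a curve, `J` and `N` are the image and the kernel of the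
multiplication by the class of the fibre. -/
def IsMiddle (W : WeilCohomology.{u, v} ops) {X : 𝒱.Obj} (R : Family X) (D : X.Cycles)
    (c : ℕ) (g : R.V.Cycles) (J N T U : Submodule W.K (W.H X)) : Prop :=
  c ≤ R.F.dim ∧ R.V.IsCyc (R.F.dim - c) g ∧ IsInverse W R D c g ∧
  MiddleConditions (W.map R.p₁) (W.map R.p₂) (W.map R.q₁) (W.map R.q₂) (W.push R.j) (W.gr X)
    (W.tr X) (W.gr R.F) (total W R g) (W.cl X D) X.dim R.F.dim c J N T U

/-- The constructible subspaces of `H^a(X)`, for all varieties `X` and all `a`: the smallest system
which contains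

* `0`, and the lines spanned by the classes of algebraic cycles;
* the spaces `H^a(S)`, for all `a` and all varieties `S` for which the conjecture B is true;
* the images, under the operators given by algebraic cycles on the product of two varieties, of
  constructible subspaces which intersect the kernel of the operator in `0`;
* the direct sums of two constructible subspaces of the same space `H^a(X)`;
* the spaces `H^(n - c)(X)`, `n = dim X`, for all families of varieties with total space `X` such
  that `H^(n - c)(X)` is the sum of the middle part of the family and of a constructible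
  subspace. -/
inductive Constructible (W : WeilCohomology.{u, v} ops) :
    ∀ X : 𝒱.Obj, ℕ → Submodule W.K (W.H X) → Prop
  | zero (X a) : Constructible W X a ⊥
  | line {X p z} : X.IsCyc p z → Constructible W X (2 * p) (Submodule.span W.K {W.cl X z})
  | lefschetz {S D} (a) : S.IsCyc 1 D → HardLefschetz W S D → LefschetzB W S D →
      Constructible W S a (W.gr S a)
  | image {X Y a b q z U U'} : (X.prod Y).IsCyc q z → a + 2 * q = b + 2 * X.dim →
      Constructible W X a U → IsImage (W.corr (W.cl (X.prod Y) z)) U U' →
      Constructible W Y b U'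
  | sum {X a U U' T} : Constructible W X a U → Constructible W X a U' → IsDirectSum U U' T →
      Constructible W X a T
  | middle {X D c J N T U} {R : Family X} {z g : R.V.Cycles} : X.IsCyc 1 D → IsDiagonal W R z →
      c ≤ X.dim → Constructible W X (X.dim - c) U → IsMiddle W R D c g J N T U →
      Constructible W X (X.dim - c) (W.gr X (X.dim - c))

end Pool.Agent.T2H05.Fib
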