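import Pool.Agent.T2H05.Fib.Defs
import Pool.Agent.T2H05.Gen.Main
import Pool.Agent.H914R2.CPart

/-!
# Constructible subspaces of the cohomology, and families of varieties
-/

open CategoryTheory AlgebraicGeometry Finset

universe u v

namespace Pool.Agent.T2H05.Fib

open Pool.Agent.H914 VarClass Obj WeilCohomology

section Alg

variable {K V V' : Type*} [Field K] [AddCommGroup V] [Module K V] [AddCommGroup V'] [Module K V']

lemma exists_shift [Infinite K] [Module.Finite K V] (M : Module.End K V) :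
    ∃ t : K, ∀ x, M x + t • x = 0 → x = 0 := by
  obtain ⟨μ, hμ⟩ := (Module.End.finite_hasEigenvalue M).infinite_compl.nonempty
  refine ⟨-μ, fun x hx => ?_⟩
  by_contra h0
  apply hμ
  refine Module.End.hasEigenvalue_of_hasEigenvector (x := x) ⟨?_, h0⟩
  rw [Module.End.mem_eigenspace_iff]
  rw [neg_smul, add_neg_eq_zero] at hx
  exact hx

/-- A combination of two linear maps is injective. -/
lemma exists_comb [Infinite K] [Module.Finite K V] (β ν : V →ₗ[K] V') (A : Submodule K V)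
    (U : Submodule K V') (hβ : ∀ x ∈ A, β x ∈ U)
    (h : ∀ x ∈ A, β x = 0 → ν x ∈ U → x = 0) :
    ∃ t : K, ∀ x ∈ A, ν x + t • β x = 0 → x = 0 := by
  set A₀ : Submodule K V := A ⊓ U.comap ν with hA₀
  have hinj : Function.Injective (β ∘ₗ A₀.subtype) := by
    rw [injective_iff_map_eq_zero]
    rintro ⟨x, hx1, hx2⟩ h0
    exact Subtype.ext (h x hx1 h0 hx2)
  obtain ⟨ρ, hρ⟩ := LinearMap.exists_leftInverse_of_injective _ (LinearMap.ker_eq_bot.2 hinj)
  obtain ⟨t, ht⟩ := exists_shift (ρ ∘ₗ ν ∘ₗ A₀.subtype)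
  refine ⟨t, fun x hx h0 => ?_⟩
  have hx' : x ∈ A₀ := by
    refine ⟨hx, ?_⟩
    change ν x ∈ U
    have : ν x = -(t • β x) := eq_neg_of_add_eq_zero_left h0
    rw [this]
    exact U.neg_mem (U.smul_mem _ (hβ x hx))
  have h1 := ht ⟨x, hx'⟩ (by
    have h2 := congrArg ρ h0
    rw [map_add, map_smul, map_zero] at h2
    have h3 : ρ (β x) = ⟨x, hx'⟩ := LinearMap.congr_fun hρ ⟨x, hx'⟩
    rw [h3] at h2
    exact h2)
  exact congrArg Subtype.val h1

end Alg

variable {k : Type u} [Field k] {𝒱 : VarClass k} {ops : CycleOps 𝒱}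
  {W : WeilCohomology.{u, v} ops} {X Y Z : 𝒱.Obj}

/-- The subspace `U` of `H^a(X)` is the image of an algebraic operator from `H^(2n - a)(X)`, whose
kernel is the orthogonal complement of `U`. -/
def Good (W : WeilCohomology.{u, v} ops) (X : 𝒱.Obj) (a : ℕ) (U : Submodule W.K (W.H X)) : Prop :=
  U ≤ W.gr X a ∧ ∃ β ∈ KOp W X X ((a : ℤ) - X.dim),
    (∀ x ∈ grZ (W.gr X) (2 * X.dim - a), β x ∈ U) ∧
    ∀ x ∈ grZ (W.gr X) (2 * X.dim - a), β x = 0 → ∀ v ∈ U, W.tr X (v * x) = 0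

lemma Good.zero (X : 𝒱.Obj) (a : ℕ) : Good W X a ⊥ := by
  refine ⟨bot_le, 0, Submodule.zero_mem _, fun x _ => Submodule.zero_mem _, ?_⟩
  intro x _ _ v hv
  rw [(Submodule.mem_bot _).1 hv, zero_mul, map_zero]

lemma Good.line {p : ℕ} {z : X.Cycles} (hz : X.IsCyc p z) :
    Good W X (2 * p) (Submodule.span W.K {W.cl X z}) := by
  have hc : W.cl X z ∈ spanCycles W X p := H447.mem_span_cl hz
  refine ⟨?_, _, KOp.cast (rankOne_mem hc hc) (by push_cast; ring), ?_, ?_⟩
  · rw [Submodule.span_le, Set.singleton_subset_iff]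
    exact W.cl_mem hz
  · intro x _
    rw [LinearMap.smulRight_apply]
    exact Submodule.smul_mem _ _ (Submodule.mem_span_singleton_self _)
  · intro x _ h0 v hv
    obtain ⟨c, rfl⟩ := Submodule.mem_span_singleton.1 hv
    rw [LinearMap.smulRight_apply, LinearMap.flip_apply] at h0
    rw [smul_mul_assoc, map_smul, W.even_comm (W.cl_mem hz)]
    rcases smul_eq_zero.1 h0 with h | h
    · rw [bil_apply] at h
      rw [h, smul_zero]
    · rw [h, mul_zero, map_zero, smul_zero]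

lemma Good.of_spanInjective {a : ℕ} (ha : a ≤ X.dim) (hS : SpanInjective W X (X.dim - a)) :
    Good W X a (W.gr X a) := by
    obtain ⟨γ, hγ, h⟩ := hS
    have hK : W.corr γ ∈ KOp W X X ((a : ℤ) - X.dim) :=
      mem_KOp_iff.2 ⟨γ, by rwa [show (X.dim : ℤ) + ((a : ℤ) - X.dim) =
        (X.dim : ℤ) - ((X.dim - a : ℕ) : ℤ) by omega], rfl⟩
    have e : (2 * (X.dim : ℤ) - a) = ((X.dim + (X.dim - a) : ℕ) : ℤ) := by omega
    refine ⟨le_rfl, _, hK, ?_, ?_⟩
    · intro x hx
      have := KOp.isHom hK _ x hx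
      rwa [show (2 * (X.dim : ℤ) - a) + 2 * ((a : ℤ) - X.dim) = (a : ℕ) by ring,
        grZ_natCast] at this
    · intro x hx h0 v _
      rw [e, grZ_natCast] at hx
      rw [h x hx h0, mul_zero, map_zero]

lemma Good.lefschetz {D : X.Cycles} (a : ℕ) (hD : X.IsCyc 1 D) (hHL : HardLefschetz W X D)
    (hB : LefschetzB W X D) : Good W X a (W.gr X a) := by
  rcases le_or_gt a X.dim with ha | ha
  · have hS : ∀ c ≤ X.dim, SpanInjective W X c := ((lefschetzB_tfae hD hHL).out 0 2).1 hB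
    exact Good.of_spanInjective ha (hS (X.dim - a) (Nat.sub_le _ _))
  · have hK : LinearMap.mulLeft W.K (W.cl X D) ^ (a - X.dim) ∈ KOp W X X ((a : ℤ) - X.dim) :=
      KOp.cast (Pool.Agent.W498.Dom.kop_pow (Pool.Agent.W534.kop_L hD) (a - X.dim))
        (by rw [mul_one]; omega)
    refine ⟨le_rfl, _, hK, ?_, ?_⟩
    · intro x hx
      have := KOp.isHom hK _ x hx
      rwa [show (2 * (X.dim : ℤ) - a) + 2 * ((a : ℤ) - X.dim) = (a : ℕ) by ring,
        grZ_natCast] at this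
    · intro x hx h0 v _
      by_cases h2 : a ≤ 2 * X.dim
      · rw [show (2 * (X.dim : ℤ) - a) = ((2 * X.dim - a : ℕ) : ℤ) by omega, grZ_natCast] at hx
        have h3 := (hHL (2 * X.dim - a) (by omega)).1 x hx
        rw [show X.dim - (2 * X.dim - a) = a - X.dim by omega] at h3
        rw [h3 h0, mul_zero, map_zero]
      · rw [grZ_of_neg (by omega)] at hx
        rw [(Submodule.mem_bot _).1 hx, mul_zero, map_zero]

lemma Good.image {a b : ℕ} {d : ℤ} {U : Submodule W.K (W.H X)} {θ : W.H X →ₗ[W.K] W.H Y}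
    (hθ : θ ∈ KOp W X Y d) (hab : (b : ℤ) = a + 2 * d) (hU : Good W X a U)
    (hinj : U ⊓ LinearMap.ker θ = ⊥) : Good W Y b (U.map θ) := by
  obtain ⟨hUa, β, hβ, h1, h2⟩ := hU
  obtain ⟨ψ, hψ, hadj⟩ := KOp.exists_adjoint hθ
  have hdeg : ∀ y ∈ grZ (W.gr Y) (2 * Y.dim - b), ψ y ∈ grZ (W.gr X) (2 * X.dim - a) := by
    intro y hy
    have := KOp.isHom hψ _ y hy
    rwa [show (2 * (Y.dim : ℤ) - b) + 2 * (d + X.dim - Y.dim) = 2 * X.dim - a by
      rw [hab]; ring] at this
  refine ⟨?_, θ ∘ₗ (β ∘ₗ ψ), KOp.cast (KOp.comp hθ (KOp.comp hβ hψ)) (by rw [hab]; ring),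
    ?_, ?_⟩
  · rintro _ ⟨x, hx, rfl⟩
    have := KOp.isHom hθ a x (by rw [grZ_natCast]; exact hUa hx)
    rwa [← hab, grZ_natCast] at this
  · intro y hy
    exact Submodule.mem_map_of_mem (h1 _ (hdeg y hy))
  · rintro y hy h0 _ ⟨v, hv, rfl⟩
    have h3 : β (ψ y) = 0 := by
      have : β (ψ y) ∈ U ⊓ LinearMap.ker θ := ⟨h1 _ (hdeg y hy), h0⟩
      rw [hinj] at this
      exact (Submodule.mem_bot _).1 this
    rw [hadj]
    exact h2 _ (hdeg y hy) h3 v hv

lemma Good.sum {a : ℕ} {U U' : Submodule W.K (W.H X)} (hU : Good W X a U) (hU' : Good W X a U')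
    (h : U ⊓ U' = ⊥) : Good W X a (U ⊔ U') := by
  obtain ⟨hUa, β, hβ, h1, h2⟩ := hU
  obtain ⟨hUa', β', hβ', h1', h2'⟩ := hU'
  refine ⟨sup_le hUa hUa', β + β', Submodule.add_mem _ hβ hβ', ?_, ?_⟩
  · intro x hx
    exact Submodule.add_mem_sup (h1 x hx) (h1' x hx)
  · intro x hx h0 v hv
    have h3 : β x = 0 := by
      have h4 : β x ∈ U ⊓ U' := by
        refine ⟨h1 x hx, ?_⟩
        rw [LinearMap.add_apply] at h0
        rw [eq_neg_of_add_eq_zero_left h0]
        exact U'.neg_mem (h1' x hx)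
      rw [h] at h4
      exact (Submodule.mem_bot _).1 h4
    have h5 : β' x = 0 := by
      rw [LinearMap.add_apply, h3, zero_add] at h0
      exact h0
    obtain ⟨u, hu, u', hu', rfl⟩ := Submodule.mem_sup.1 hv
    rw [add_mul, map_add, h2 x hx h3 u hu, h2' x hx h5 u' hu', add_zero]

/-- The criterion. -/
theorem spanInjective_of_good {c : ℕ} (hc : c ≤ X.dim) {U : Submodule W.K (W.H X)}
    (hU : Good W X (X.dim - c) U) {ν : Module.End W.K (W.H X)} (hν : ν ∈ KOp W X X (-(c : ℤ)))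
    (h : ∀ x ∈ W.gr X (X.dim + c), (∀ v ∈ U, W.tr X (v * x) = 0) → ν x ∈ U → x = 0) :
    SpanInjective W X c := by
  obtain ⟨hUa, β, hβ, h1, h2⟩ := hU
  have e : (2 * (X.dim : ℤ) - (X.dim - c : ℕ)) = ((X.dim + c : ℕ) : ℤ) := by omega
  rw [e] at h1 h2
  simp only [grZ_natCast] at h1 h2
  obtain ⟨t, ht⟩ := exists_comb β ν (W.gr X (X.dim + c)) U h1
    (fun x hx h0 h3 => h x hx (h2 x hx h0) h3)
  have hK : ν + t • β ∈ KOp W X X (-(c : ℤ)) := Submodule.add_mem _ hν
    (Submodule.smul_mem _ _ (KOp.cast hβ (by omega)))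
  obtain ⟨γ, hγ, hγ'⟩ := mem_KOp_iff.1 hK
  refine ⟨γ, by rwa [show (X.dim : ℤ) + -(c : ℤ) = X.dim - c by ring] at hγ, fun x hx h0 => ?_⟩
  rw [hγ'] at h0
  exact ht x hx h0

section Family

variable {R : Family X}

lemma kop_mulLeft {p : ℕ} {g : X.Cycles} (hg : X.IsCyc p g) :
    LinearMap.mulLeft W.K (W.cl X g) ∈ KOp W X X p := by
  have h1 : LinearMap.mulLeft W.K (W.cl X g) = W.corr (W.cl _ (ops.push (diag X) g)) := by
    apply LinearMap.ext
    intro a
    rw [W.cl_push, corr_diag, LinearMap.mulLeft_apply]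
  rw [h1]
  exact KOp.gen (p := X.dim + p) (by push_cast; ring)
    (ops.push_mem _ hg (by simp only [dim_prod]; omega))

lemma kop_rel {p : ℕ} {g : R.V.Cycles} (hg : R.V.IsCyc p g) :
    total W R g ∈ KOp W X X ((p : ℤ) - R.F.dim) := by
  have h1 : LinearMap.mulLeft W.K (W.cl R.V g) ∈ KOp W R.V R.V p := kop_mulLeft hg
  exact KOp.cast (KOp.comp (Pool.Agent.R908.KOp.pushHom R.p₂)
    (KOp.comp h1 (Pool.Agent.R908.KOp.mapHom R.p₁))) (by rw [R.dim]; push_cast; ring)

lemma pow_mem_gr {ξ : W.H X} (hξ : ξ ∈ W.gr X (2 * 1)) (c : ℕ) : ξ ^ c ∈ W.gr X (2 * c) := by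
  induction c with
  | zero => simpa using W.one_mem X
  | succ c ih =>
    rw [pow_succ]
    have := W.mul_mem ih hξ
    rwa [show 2 * c + 2 * 1 = 2 * (c + 1) by ring] at this

/-- The two computations on the fibre. -/
lemma fibre_forms {D : X.Cycles} (hD : X.IsCyc 1 D) {c p : ℕ} {z g : R.V.Cycles}
    (hz : IsDiagonal W R z) (hg : R.V.IsCyc p g) {a b : ℕ}
    (hinv : ∀ u ∈ W.gr R.F a, W.map R.i (W.cl X D) ^ c *
      fibre W R g u = u)
    {w : W.H R.G} (hw : w ∈ Submodule.span W.K {w | ∃ u ∈ W.gr R.F a, ∃ v ∈ W.gr R.F b,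
      w = W.map R.q₁ u * W.map R.q₂ v}) :
    W.tr R.G (w * W.map R.j (W.cl R.V z)) =
      W.tr R.G (w * (W.map R.j (W.cl R.V g) * W.map R.q₂ (W.map R.i (W.cl X D) ^ c))) := by
  have hzj : W.map R.j (W.cl R.V z) ∈ W.gr R.G (2 * R.F.dim) := W.map_mem _ (W.cl_mem hz.1)
  have hgj : W.map R.j (W.cl R.V g) ∈ W.gr R.G (2 * p) := W.map_mem _ (W.cl_mem hg)
  have hξ : W.map R.i (W.cl X D) ^ c ∈ W.gr R.F (2 * c) := by
    rw [← map_pow]
    exact W.map_mem _ (pow_mem_gr (W.cl_mem hD) c)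
  refine Submodule.span_induction (p := fun w _ => W.tr R.G (w * W.map R.j (W.cl R.V z)) =
      W.tr R.G (w * (W.map R.j (W.cl R.V g) * W.map R.q₂ (W.map R.i (W.cl X D) ^ c))))
    ?_ ?_ ?_ ?_ hw
  · rintro _ ⟨u, hu, v, -, rfl⟩
    have e1 : W.map R.q₁ u * W.map R.q₂ v * W.map R.j (W.cl R.V z) =
        (W.map R.j (W.cl R.V z) * W.map R.q₁ u) * W.map R.q₂ v := by
      rw [← W.even_comm hzj, mul_assoc]
    have e2 : W.map R.q₁ u * W.map R.q₂ v *
        (W.map R.j (W.cl R.V g) * W.map R.q₂ (W.map R.i (W.cl X D) ^ c)) =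
        (W.map R.j (W.cl R.V g) * W.map R.q₁ u) *
          W.map R.q₂ (W.map R.i (W.cl X D) ^ c * v) := by
      rw [← mul_assoc, ← W.even_comm hgj, map_mul, mul_assoc, mul_assoc, mul_assoc]
      congr 2
      rw [W.even_comm (W.map_mem _ hξ)]
    have h1 : fibre W R z u = u := by
      rw [hz.2.2]; rfl
    have h2 := hinv u hu
    rw [e1, ← W.tr_push, e2, ← W.tr_push]
    have h3 : W.push R.q₂ (W.map R.j (W.cl R.V z) * W.map R.q₁ u) = u := h1
    have h4 : W.map R.i (W.cl X D) ^ c *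
      W.push R.q₂ (W.map R.j (W.cl R.V g) * W.map R.q₁ u) = u := h2
    rw [h3, ← mul_assoc, ← W.even_comm hξ, h4]
  · rw [zero_mul, zero_mul]
  · intro x y _ _ hx hy
    rw [add_mul, add_mul, map_add, map_add, hx, hy]
  · intro t x _ hx
    rw [smul_mul_assoc, smul_mul_assoc, map_smul, map_smul, hx]

/-- The middle part of a family. -/
theorem spanInjective_of_middle {D : X.Cycles} (hD : X.IsCyc 1 D) {c : ℕ}
    {z g : R.V.Cycles} (hz : IsDiagonal W R z) {J N T U : Submodule W.K (W.H X)}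
    (hG : Good W X (X.dim - c) U) (hc : c ≤ X.dim)
    (hM : IsMiddle W R D c g J N T U) : SpanInjective W X c := by
  obtain ⟨hle, hcyc, hinv, h⟩ := hM
  refine spanInjective_of_good hc hG
    (KOp.cast (kop_rel hcyc) (by  omega)) fun x hx hxU hνU => ?_
  set ν := total W R g with hν
  have hUa := hG.1
  have hxU' : ∀ v ∈ U, W.tr X (x * v) = 0 := by
    intro v hv
    rw [W.comm hx (hUa hv), map_smul, hxU v hv, smul_zero]
  have hxJ : x ∈ orth (W.gr X) (W.tr X) J (X.dim + c) := ⟨hx, fun y hy => hxU' y (h.sub hy)⟩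
  have hνN : ν x ∈ N := h.stable x hxJ
  have hξ : W.cl X D ^ c ∈ W.gr X (2 * c) := pow_mem_gr (W.cl_mem hD) c
  -- orthogonality to `T`
  have hxT : ∀ t ∈ T, W.tr X (x * t) = 0 := by
    intro t ht
    obtain ⟨w, hw, hpw⟩ := h.comes x hxJ t ht
    have hzV := W.cl_mem hz.1
    have hgV := W.cl_mem hcyc
    have h1 : W.tr X (x * t) = W.tr R.G (w * W.map R.j (W.cl R.V z)) := by
      have h2 : W.push R.p₂ (W.cl R.V z * W.map R.p₁ x) = x := by
        have := LinearMap.congr_fun hz.2.1 x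
        exact this
      conv_lhs => rw [← h2]
      rw [W.tr_push, mul_assoc, hpw, W.even_comm hzV, W.tr_push]
    have h3 : W.tr X (ν x * (W.cl X D ^ c * t)) = W.tr R.G (w *
        (W.map R.j (W.cl R.V g) * W.map R.q₂ (W.map R.i (W.cl X D) ^ c))) := by
      have h4 : ν x = W.push R.p₂ (W.cl R.V g * W.map R.p₁ x) := rfl
      have e1 : W.map R.j (W.map R.p₂ (W.cl X D ^ c)) =
          W.map R.q₂ (W.map R.i (W.cl X D) ^ c) := by
        rw [← W.map_comp, R.w₂, W.map_comp, map_pow]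
      have e2 : W.cl R.V g * W.map R.p₁ x * (W.map R.p₂ (W.cl X D ^ c) * W.map R.p₂ t) =
          W.push R.j w * (W.cl R.V g * W.map R.p₂ (W.cl X D ^ c)) := by
        have hξV : W.map R.p₂ (W.cl X D ^ c) ∈ W.gr R.V (2 * c) := W.map_mem _ hξ
        rw [← hpw, ← mul_assoc (W.map R.p₁ x * W.map R.p₂ t), ← W.even_comm hgV,
          ← W.even_comm hξV, ← mul_assoc, ← mul_assoc, ← mul_assoc,
          ← W.even_comm hξV]
        simp only [mul_assoc]
      rw [h4, W.tr_push, map_mul (W.map R.p₂), e2, W.tr_push, map_mul (W.map R.j), e1]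
    rw [h1, fibre_forms hD hz hcyc hinv hw, ← h3]
    have h5 : ν x * (W.cl X D ^ c * t) = W.cl X D ^ c * (ν x * t) := by
      rw [← mul_assoc, ← W.even_comm hξ, mul_assoc]
    rw [h5]
    exact h.orthogonal _ ⟨hνU, hνN⟩ t ht
  -- the conclusion
  apply W.nondeg
  intro b
  refine gr_induction (W.isInternal X) (p := fun b => W.tr X (x * b) = 0) ?_ ?_ b
  · intro j b hb
    by_cases hj : j = X.dim - c
    · subst hj
      obtain ⟨t, ht, u, hu, rfl⟩ := Submodule.mem_sup.1 (h.sum hb)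
      rw [mul_add, map_add, hxT t ht, hxU' u hu, add_zero]
    · exact W.tr_eq_zero (W.mul_mem hx hb) (by omega)
  · intro b b' hb hb'
    rw [mul_add, map_add, hb, hb', add_zero]

end Family

theorem good_of_constructible {a : ℕ} {U : Submodule W.K (W.H X)}
    (h : Constructible W X a U) : Good W X a U := by
  induction h with
  | zero X a => exact Good.zero X a
  | line hz => exact Good.line hz
  | lefschetz a hD hHL hB => exact Good.lefschetz a hD hHL hB
  | @image X Y a b q z U U' hz hab _ hinj ih =>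
    rw [hinj.2]
    exact Good.image (KOp.gen (d := (q : ℤ) - X.dim) (p := q) (by ring) hz) (by omega) ih hinj.1
  | sum _ _ h ih ih' =>
    rw [h.2]
    exact ih.sum ih' h.1
  | @middle X D c J N T U R z g hD hz hc _ hM ih =>
    exact Good.of_spanInjective (Nat.sub_le _ _)
      (by rw [Nat.sub_sub_self hc]; exact spanInjective_of_middle hD hz ih hc hM)

theorem spanInjective_of_constructible {c : ℕ} (hc : c ≤ X.dim)
    (h : Constructible W X (X.dim - c) (W.gr X (X.dim - c))) : SpanInjective W X c := by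
  refine spanInjective_of_good hc (good_of_constructible h) (Submodule.zero_mem _)
    fun x hx h0 _ => ?_
  apply nondeg_right
  intro b
  refine gr_induction (W.isInternal X) (p := fun b => W.tr X (b * x) = 0) ?_ ?_ b
  · intro j b hb
    by_cases hj : j = X.dim - c
    · subst hj
      exact h0 b hb
    · exact W.tr_eq_zero (W.mul_mem hb hx) (by omega)
  · intro b b' hb hb'
    rw [add_mul, map_add, hb, hb', add_zero]

/-- **The conjecture B for varieties with constructible cohomology.** -/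
theorem lefschetzB_of_constructible
    (h : ∀ c, 1 ≤ c → c ≤ X.dim → Constructible W X (X.dim - c) (W.gr X (X.dim - c)))
    {D : X.Cycles} (hD : X.IsCyc 1 D) (hHL : HardLefschetz W X D) : LefschetzB W X D := by
  refine ((lefschetzB_tfae hD hHL).out 2 0).1 fun c hc => ?_
  rcases Nat.eq_zero_or_pos c with rfl | h1
  · obtain ⟨γ, hγ, h1⟩ := mem_KOp_iff.1 (KOp.id (W := W) X)
    refine ⟨γ, by simpa using hγ, fun x _ h0 => ?_⟩
    rw [h1] at h0
    exact h0
  · exact spanInjective_of_constructible hc (h c h1 hc)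

end Pool.Agent.T2H05.Fib
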